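import Pool.Agent.Run7.h31.PF.Stm

/-!
# Polynomial automorphisms of affine spaces which preserve a flag of projections down to the plane

`C` is any class of groups with the closure properties `ClosedE C` (subgroups, finite products, free
products, overgroups of finite index, directed colimits, the extension criterion) which contains the
metabelian groups and satisfies `AcylF C`: a finitely generated group that acts on a tree without
inversions, such that for some `k` and `n` the pointwise stabilizers of the paths of length at least
`k` have at most `n` elements, is in `C` if the vertex stabilizers are in `C`. All this is known for
the class of the groups whose wreath products with finite groups satisfy the K- and L-theoretic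
Farrell-Jones conjecture with coefficients (Bartels, Lück, Reich, Wegner, and Knopf for `AcylF`); this
class also contains the groups `GL_m(ℚ)` (Rüping). If `G` is torsion-free and in this class, then
`Wh(G) = 0`, the reduced projective class group of `ℤG` is zero and `K_n(ℤG) = 0` for all `n < 0`.

**Theorem.** (1) Let `R` be a commutative domain, an algebra over a ring `k`. If the group of the
`k`-automorphisms of `R` is in `C`, then for all `n` the group `flagSub k R n` of the
`k`-automorphisms of `R[z_0, …, z_{n-1}]` which map each of the subrings `R[z_i, …, z_{n-1}]`,
`0 ≤ i ≤ n`, onto itself is in `C`. (2) If `C` contains the groups `GL_m(ℚ)`, then for every
algebraic extension `K` of `ℚ` and all `n` the group of the `K`-automorphisms of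
`K[x, y][z_0, …, z_{n-1}]` which map `K[x, y]` and all the subrings `K[x, y][z_i, …, z_{n-1}]` onto
themselves is in `C`.

The second part is about the groups of polynomial automorphisms of the affine space of dimension
`n + 2` over the field of all algebraic numbers which are compatible with the projections to the
affine spaces of dimension `n + 1, n, …, 2`. The largest one contains all triangular automorphisms
and the full group of polynomial automorphisms of the plane, and it is an extension of the latter by
a solvable group which is not finitely generated. So for every
torsion-free group `G` of such automorphisms, finitely generated or not, the three vanishing statements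
of the question are true. The case `n = 0` is the theorem on the plane (MP_8f66f0_al,
PlaneAutomorphisms, of the same author), where the group acts on the tree of Jung and van der
Kulk; for `n > 0` there is no such tree.

The proof of (1). By induction it suffices to consider the automorphisms `g` of `S[X]` that induce an
automorphism of the domain `S` which belongs to a group `A` in `C`. By degrees `g X = u X + f` with
`u`, `f` in `S`. The automorphisms over `S` of the form `X ↦ X + f` are an abelian normal subgroup
`N`, modulo which the automorphisms over `S` are commutative. The extension criterion says that an
extension of a group in `C` with an abelian kernel is in `C`, since the preimages of cyclic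
subgroups are metabelian; it is applied twice.
-/

set_option autoImplicit false

namespace Pool.Agent.Results.MP_16fe43_al.FlagAutomorphisms

open Pool.Agent.Y110.FJ (ClosedE)
open Pool.Agent.N509.TX (AcylF)
open Run7.h31.PF

/-- Let `C` be a class of groups as above. (1) If the group of automorphisms of a domain `R` is in
`C`, so are the groups of the automorphisms of `R[z_0, …, z_{n-1}]` preserving the flag of subrings.
(2) If `C` contains the groups `GL_m(ℚ)`, then it contains the groups of the automorphisms of
`K[x, y][z_0, …, z_{n-1}]` preserving the flag, `K` algebraic over `ℚ`. -/
theorem result (C : ∀ (G : Type) [Group G], Prop) (hC : ClosedE C)
    (hM : ∀ (G : Type) [Group G], derivedSeries G 2 = ⊥ → C G) (hA : AcylF C) :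
    ClosedUnderFlags C ∧
      ((∀ m : ℕ, C (Matrix.GeneralLinearGroup (Fin m) ℚ)) → ContainsFlagGroups C) :=
  ⟨closedUnderFlags hC hM, containsFlagGroups hC hM hA⟩

end Pool.Agent.Results.MP_16fe43_al.FlagAutomorphisms
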